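import Pool.Agent.Lib.MP_de1832_co.SmallCliques

/-!
# Graphs that are triangle and co-triangle, with small cliques or small stable sets

In a graph that is both triangle and co-triangle, a maximal clique and a maximal stable set that
are disjoint have at least five vertices each, and if one of them has exactly five then the other
has at least ten.  Both bounds are best possible.  Consequences for Q1 of the problem: such a graph
is normal if its vertices can be covered by small maximal cliques (or by small maximal stable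
sets), and it is even CIS if its clique number and stability number are small, or if it has at
most eleven vertices.
-/

namespace Pool.Agent.Results.MP_de1832_co.SmallCliques

universe u

open Pool.Agent.Lib.MPde1832.SC (Tri split)

/-- `G` is a triangle graph: for every maximal stable set `S` and every edge `uv` of `G - S`,
some vertex of `S` is adjacent to both `u` and `v`. -/
def IsTriangleGraph {V : Type u} (G : SimpleGraph V) : Prop :=
  ∀ S : Set V, Maximal (fun T : Set V => G.IsIndepSet T) S →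
    ∀ u v : V, u ∉ S → v ∉ S → G.Adj u v → ∃ w ∈ S, G.Adj w u ∧ G.Adj w v

/-- `G` is normal: there are a family `C` of cliques and a family `S` of stable sets, each covering
the vertex set, such that every member of `C` meets every member of `S`. -/
def IsNormal {V : Type u} (G : SimpleGraph V) : Prop :=
  ∃ C S : Set (Set V), (∀ c ∈ C, G.IsClique c) ∧ (∀ s ∈ S, G.IsIndepSet s) ∧
    (∀ v : V, ∃ c ∈ C, v ∈ c) ∧ (∀ v : V, ∃ s ∈ S, v ∈ s) ∧
    ∀ c ∈ C, ∀ s ∈ S, (c ∩ s).Nonempty

/-- `G` is CIS: every maximal clique meets every maximal stable set. -/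
def IsCIS {V : Type u} (G : SimpleGraph V) : Prop :=
  ∀ C S : Set V, Maximal (fun T : Set V => G.IsClique T) C →
    Maximal (fun T : Set V => G.IsIndepSet T) S → (C ∩ S).Nonempty

/-- The pairs `(w, a)` with `w ≤ 4`, or `a ≤ 4`, or `w ≤ 5` and `a ≤ 9`, or `w ≤ 9` and `a ≤ 5`. -/
def Small (w a : ℕ) : Prop := w ≤ 4 ∨ a ≤ 4 ∨ (w ≤ 5 ∧ a ≤ 9) ∨ (w ≤ 9 ∧ a ≤ 5)

lemma ncard_le_cliqueNum {V : Type u} [Fintype V] {G : SimpleGraph V} {C : Set V}
    (hC : G.IsClique C) : C.ncard ≤ G.cliqueNum := by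
  classical
  obtain ⟨C', rfl⟩ : ∃ C' : Finset V, C = (C' : Set V) := ⟨C.toFinset, by simp⟩
  rw [Set.ncard_coe_finset]
  exact SimpleGraph.IsClique.card_le_cliqueNum (tc := hC)

lemma ncard_le_indepNum {V : Type u} [Fintype V] {G : SimpleGraph V} {S : Set V}
    (hS : G.IsIndepSet S) : S.ncard ≤ G.indepNum := by
  classical
  obtain ⟨S', rfl⟩ : ∃ S' : Finset V, S = (S' : Set V) := ⟨S.toFinset, by simp⟩
  rw [Set.ncard_coe_finset]
  exact SimpleGraph.IsIndepSet.card_le_indepNum hS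

/-- The local statement. -/
theorem meets {V : Type u} [Fintype V] [Nonempty V] {G : SimpleGraph V} (ht : IsTriangleGraph G)
    (hc : IsTriangleGraph Gᶜ) {C S : Set V} (hC : Maximal (fun T : Set V => G.IsClique T) C)
    (hS : Maximal (fun T : Set V => G.IsIndepSet T) S)
    (h : Small C.ncard S.ncard ∨ Fintype.card V ≤ 11) : (C ∩ S).Nonempty := by
  by_contra hd
  obtain ⟨h1, h2, h3, h4⟩ := Pool.Agent.Lib.MPde1832.SC.disjoint_pair' ht hc hC hS hd
  rcases h with h | h
  · unfold Small at h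
    omega
  · have h7 : (C ∪ S).ncard = C.ncard + S.ncard :=
      Set.ncard_union_eq (Set.disjoint_iff_inter_eq_empty.2 (Set.not_nonempty_iff_eq_empty.1 hd))
        (Set.toFinite _) (Set.toFinite _)
    have h8 : (C ∪ S).ncard ≤ Fintype.card V := by
      rw [← Nat.card_eq_fintype_card, ← Set.ncard_univ]
      exact Set.ncard_le_ncard (Set.subset_univ _) (Set.toFinite _)
    omega

lemma small_mono {w a w' a' : ℕ} (h : Small w a) (hw : w' ≤ w) (ha : a' ≤ a) : Small w' a' := by
  unfold Small at *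
  omega

/-- Normality from a cover by small maximal cliques. -/
theorem normal_of_cover {V : Type u} [Fintype V] {G : SimpleGraph V} (ht : IsTriangleGraph G)
    (hc : IsTriangleGraph Gᶜ)
    (h : ∀ v : V, ∃ C : Set V, Maximal (fun T : Set V => G.IsClique T) C ∧ v ∈ C ∧
      Small C.ncard G.indepNum) : IsNormal G := by
  refine ⟨{C | Maximal (fun T : Set V => G.IsClique T) C ∧ C.Nonempty ∧ Small C.ncard G.indepNum},
    {S | Maximal (fun T : Set V => G.IsIndepSet T) S}, fun C hC => hC.1.prop,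
    fun S hS => hS.prop, ?_, ?_, ?_⟩
  · intro v
    obtain ⟨C, h1, h2, h3⟩ := h v
    exact ⟨C, ⟨h1, ⟨v, h2⟩, h3⟩, h2⟩
  · intro v
    obtain ⟨S, h1, h2⟩ := Pool.Agent.Lib.MPde1832.SC.exists_maximal_indep G v
    exact ⟨S, h1, h2⟩
  · rintro C ⟨h1, ⟨x, hx⟩, h3⟩ S hS
    have : Nonempty V := ⟨x⟩
    exact meets ht hc h1 hS (Or.inl (small_mono h3 le_rfl (ncard_le_indepNum hS.prop)))

/-- Normality from a cover by small maximal stable sets. -/
theorem normal_of_cover' {V : Type u} [Fintype V] {G : SimpleGraph V} (ht : IsTriangleGraph G)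
    (hc : IsTriangleGraph Gᶜ)
    (h : ∀ v : V, ∃ S : Set V, Maximal (fun T : Set V => G.IsIndepSet T) S ∧ v ∈ S ∧
      Small G.cliqueNum S.ncard) : IsNormal G := by
  refine ⟨{C | Maximal (fun T : Set V => G.IsClique T) C},
    {S | Maximal (fun T : Set V => G.IsIndepSet T) S ∧ S.Nonempty ∧ Small G.cliqueNum S.ncard},
    fun C hC => hC.prop, fun S hS => hS.1.prop, ?_, ?_, ?_⟩
  · intro v
    obtain ⟨C, h1, h2⟩ := Pool.Agent.Lib.MPde1832.SC.exists_maximal_clique G v
    exact ⟨C, h1, h2⟩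
  · intro v
    obtain ⟨S, h1, h2, h3⟩ := h v
    exact ⟨S, ⟨h1, ⟨v, h2⟩, h3⟩, h2⟩
  · rintro C hC S ⟨h1, ⟨x, hx⟩, h3⟩
    have : Nonempty V := ⟨x⟩
    exact meets ht hc hC h1 (Or.inl (small_mono h3 (ncard_le_cliqueNum hC.prop) le_rfl))

lemma normal_of_cis {V : Type u} [Fintype V] {G : SimpleGraph V} (h : IsCIS G) : IsNormal G := by
  refine ⟨{C | Maximal (fun T : Set V => G.IsClique T) C},
    {S | Maximal (fun T : Set V => G.IsIndepSet T) S}, fun C hC => hC.prop,
    fun S hS => hS.prop, ?_, ?_, ?_⟩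
  · intro v
    obtain ⟨S, h1, h2⟩ := Pool.Agent.Lib.MPde1832.SC.exists_maximal_clique G v
    exact ⟨S, h1, h2⟩
  · intro v
    obtain ⟨S, h1, h2⟩ := Pool.Agent.Lib.MPde1832.SC.exists_maximal_indep G v
    exact ⟨S, h1, h2⟩
  · intro C hC S hS
    exact h C S hC hS

/-- The split graphs used below are normal. -/
lemma normal_split {w a : ℕ} {R : Fin w → Fin a → Prop} (hB : ∀ j j', ∃ i, ¬ R i j ∧ ¬ R i j') :
    IsNormal (split R) := by
  refine ⟨Set.range (Sum.elim (fun _ : Fin w => (Set.range Sum.inl : Set (Fin w ⊕ Fin a)))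
      fun j : Fin a => insert (Sum.inr j) {x | ∃ i, R i j ∧ x = Sum.inl i}),
    Set.range fun i : Fin w => insert (Sum.inl i : Fin w ⊕ Fin a)
      {x | ∃ j, ¬ R i j ∧ x = Sum.inr j}, ?_, ?_, ?_, ?_, ?_⟩
  · rintro _ ⟨i | j, rfl⟩
    · rintro _ ⟨k, rfl⟩ _ ⟨l, rfl⟩ hne
      exact (Pool.Agent.Lib.MPde1832.SC.adj_ll R k l).2 fun h => hne (by rw [h])
    · rintro x (rfl | ⟨k, hk, rfl⟩) y (rfl | ⟨l, hl, rfl⟩) hne
      · exact absurd rfl hne
      · exact (Pool.Agent.Lib.MPde1832.SC.adj_rl R l j).2 hl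
      · exact (Pool.Agent.Lib.MPde1832.SC.adj_lr R k j).2 hk
      · exact (Pool.Agent.Lib.MPde1832.SC.adj_ll R k l).2 fun h => hne (by rw [h])
  · rintro _ ⟨i, rfl⟩
    rintro x (rfl | ⟨k, hk, rfl⟩) y (rfl | ⟨l, hl, rfl⟩) hne
    · exact absurd rfl hne
    · intro h
      exact hl ((Pool.Agent.Lib.MPde1832.SC.adj_lr R i l).1 h)
    · intro h
      exact hk ((Pool.Agent.Lib.MPde1832.SC.adj_rl R i k).1 h)
    · exact Pool.Agent.Lib.MPde1832.SC.adj_rr R k l
  · rintro (i | j)
    · exact ⟨_, ⟨Sum.inl i, rfl⟩, i, rfl⟩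
    · exact ⟨_, ⟨Sum.inr j, rfl⟩, Set.mem_insert _ _⟩
  · rintro (i | j)
    · exact ⟨_, ⟨i, rfl⟩, Set.mem_insert _ _⟩
    · obtain ⟨i, h1, -⟩ := hB j j
      exact ⟨_, ⟨i, rfl⟩, Or.inr ⟨j, h1, rfl⟩⟩
  · rintro _ ⟨k | j, rfl⟩ _ ⟨i, rfl⟩
    · exact ⟨Sum.inl i, ⟨i, rfl⟩, Set.mem_insert _ _⟩
    · by_cases h : R i j
      · exact ⟨Sum.inl i, Or.inr ⟨i, h, rfl⟩, Set.mem_insert _ _⟩
      · exact ⟨Sum.inr j, Set.mem_insert _ _, Or.inr ⟨j, h, rfl⟩⟩

lemma not_cis_split {w a : ℕ} {R : Fin w → Fin a → Prop} (hA : ∀ i i', ∃ j, R i j ∧ R i' j)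
    (hB : ∀ j j', ∃ i, ¬ R i j ∧ ¬ R i j') : ¬ IsCIS (split R) := by
  intro h
  obtain ⟨x, ⟨i, hi⟩, ⟨j, hj⟩⟩ := h _ _ (Pool.Agent.Lib.MPde1832.SC.maximal_l hB)
    (Pool.Agent.Lib.MPde1832.SC.maximal_r hA)
  rw [← hj] at hi
  cases hi

/-- **Graphs that are both triangle and co-triangle.**
(1) A maximal clique `C` and a maximal stable set `S` of such a graph meet as soon as
`Small |C| |S|`.
(2) Such a graph is normal if every vertex lies in a maximal clique `C` with `Small |C| α(G)`, or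
every vertex lies in a maximal stable set `S` with `Small ω(G) |S|`.
(3) Such a graph, if it has a vertex, is CIS and normal if `Small ω(G) α(G)`, or if it has at most
eleven vertices.
(4) For all other pairs `(w, a)` there is such a graph with `ω = w` and `α = a` that is not CIS
(but normal), and there is one with twelve vertices. -/
theorem result :
    (∀ (V : Type u) [Fintype V] [Nonempty V] (G : SimpleGraph V), IsTriangleGraph G →
      IsTriangleGraph Gᶜ → ∀ C S : Set V, Maximal (fun T : Set V => G.IsClique T) C →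
        Maximal (fun T : Set V => G.IsIndepSet T) S → Small C.ncard S.ncard →
          (C ∩ S).Nonempty) ∧
    (∀ (V : Type u) [Fintype V] (G : SimpleGraph V), IsTriangleGraph G → IsTriangleGraph Gᶜ →
      ((∀ v : V, ∃ C : Set V, Maximal (fun T : Set V => G.IsClique T) C ∧ v ∈ C ∧
          Small C.ncard G.indepNum) ∨
        (∀ v : V, ∃ S : Set V, Maximal (fun T : Set V => G.IsIndepSet T) S ∧ v ∈ S ∧
          Small G.cliqueNum S.ncard)) → IsNormal G) ∧
    (∀ (V : Type u) [Fintype V] [Nonempty V] (G : SimpleGraph V), IsTriangleGraph G →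
      IsTriangleGraph Gᶜ → (Small G.cliqueNum G.indepNum ∨ Fintype.card V ≤ 11) →
        IsCIS G ∧ IsNormal G) ∧
    (∀ w a : ℕ, ¬ Small w a → ∃ (V : Type) (_ : Fintype V) (G : SimpleGraph V),
      IsTriangleGraph G ∧ IsTriangleGraph Gᶜ ∧ G.cliqueNum = w ∧ G.indepNum = a ∧
        ¬ IsCIS G ∧ IsNormal G) ∧
    ∃ (V : Type) (_ : Fintype V) (G : SimpleGraph V), Fintype.card V = 12 ∧
      IsTriangleGraph G ∧ IsTriangleGraph Gᶜ ∧ ¬ IsCIS G ∧ IsNormal G := by
  refine ⟨?_, ?_, ?_, ?_, ?_⟩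
  · intro V _ _ G ht hc C S hC hS h
    exact meets ht hc hC hS (Or.inl h)
  · intro V _ G ht hc h
    rcases h with h | h
    · exact normal_of_cover ht hc h
    · exact normal_of_cover' ht hc h
  · intro V _ _ G ht hc h
    have h1 : IsCIS G := by
      intro C S hC hS
      refine meets ht hc hC hS ?_
      rcases h with h | h
      · exact Or.inl (small_mono h (ncard_le_cliqueNum hC.prop) (ncard_le_indepNum hS.prop))
      · exact Or.inr h
    exact ⟨h1, normal_of_cis h1⟩
  · intro w a h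
    obtain ⟨R, hA, hB⟩ := Pool.Agent.Lib.MPde1832.SC.exists_design
      (show ¬ Pool.Agent.Lib.MPde1832.SC.Small w a from h)
    exact ⟨Fin w ⊕ Fin a, inferInstance, split R,
      Pool.Agent.Lib.MPde1832.SC.tri_split hA, Pool.Agent.Lib.MPde1832.SC.cotri_split hB,
      Pool.Agent.Lib.MPde1832.SC.cliqueNum_eq hB, Pool.Agent.Lib.MPde1832.SC.indepNum_eq hA,
      not_cis_split hA hB, normal_split hB⟩
  · have hA := Pool.Agent.Lib.MPde1832.SC.D6_A
    have hB := Pool.Agent.Lib.MPde1832.SC.D6_B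
    exact ⟨Fin 6 ⊕ Fin 6, inferInstance,
      split fun i j => Pool.Agent.Lib.MPde1832.SC.D6 i j = true, by simp,
      Pool.Agent.Lib.MPde1832.SC.tri_split hA, Pool.Agent.Lib.MPde1832.SC.cotri_split hB,
      not_cis_split hA hB, normal_split hB⟩

end Pool.Agent.Results.MP_de1832_co.SmallCliques
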