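import Mathlib

/-!
# A triangle graph that is not normal

`H` is the triangle-free graph on nine vertices `p₀,p₁,p₂` (0,1,2), `a,a',b,b'` (3,4,5,6),
`x,y` (7,8) with all edges `pᵢq`, `q ∈ {a,a',b,b'}`, and the edges `xa, xa', yb, yb', xy`.
`G` is the complement of the line graph of `H`: its vertices are the seventeen edges of `H`, two of
them adjacent when they are disjoint.
-/

namespace Pool.Agent.Results.MP_de1832_co.TriangleNotNormal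

/-- `G` is a triangle graph: for every maximal stable set `S` and every edge `uv` of `G - S`,
some vertex of `S` is adjacent to both `u` and `v`. -/
def IsTriangleGraph {V : Type*} (G : SimpleGraph V) : Prop :=
  ∀ S : Set V, Maximal (fun T : Set V => G.IsIndepSet T) S →
    ∀ u v : V, u ∉ S → v ∉ S → G.Adj u v → ∃ w ∈ S, G.Adj w u ∧ G.Adj w v

/-- `G` is normal: there are a family `C` of cliques and a family `S` of stable sets, each covering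
the vertex set, such that every member of `C` meets every member of `S`. -/
def IsNormal {V : Type*} (G : SimpleGraph V) : Prop :=
  ∃ C S : Set (Set V), (∀ c ∈ C, G.IsClique c) ∧ (∀ s ∈ S, G.IsIndepSet s) ∧
    (∀ v : V, ∃ c ∈ C, v ∈ c) ∧ (∀ v : V, ∃ s ∈ S, v ∈ s) ∧
    ∀ c ∈ C, ∀ s ∈ S, (c ∩ s).Nonempty

/-- The first end of each edge of `H`. -/
def fst : Fin 17 → Fin 9 := ![0, 0, 0, 0, 1, 1, 1, 1, 2, 2, 2, 2, 7, 7, 8, 8, 7]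

/-- The second end of each edge of `H`. -/
def snd : Fin 17 → Fin 9 := ![3, 4, 5, 6, 3, 4, 5, 6, 3, 4, 5, 6, 3, 4, 5, 6, 8]

/-- The vertex `v` of `H` lies on the edge `e`. -/
def On (v : Fin 9) (e : Fin 17) : Prop := v = fst e ∨ v = snd e

instance (v : Fin 9) (e : Fin 17) : Decidable (On v e) := by unfold On; infer_instance

/-- Two edges of `H` share a vertex. -/
def Meet (e f : Fin 17) : Prop := fst e = fst f ∨ fst e = snd f ∨ snd e = fst f ∨ snd e = snd f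

instance (e f : Fin 17) : Decidable (Meet e f) := by unfold Meet; infer_instance

/-- The complement of the line graph of `H`. -/
def G : SimpleGraph (Fin 17) where
  Adj e f := ¬ Meet e f
  symm := ⟨by
    intro e f h h'
    apply h
    revert h'
    clear h
    revert e f
    decide⟩
  loopless := ⟨fun e h => h (Or.inl rfl)⟩

lemma adj_iff (e f : Fin 17) : G.Adj e f ↔ ¬ Meet e f := Iff.rfl

lemma meet_of_on {v : Fin 9} {e f : Fin 17} (h : On v e) (h' : On v f) : Meet e f := by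
  unfold On Meet at *
  rcases h with h | h <;> rcases h' with h' | h' <;> subst h <;> simp_all

lemma star_indep (v : Fin 9) : G.IsIndepSet {e | On v e} := by
  intro e he f hf _
  rw [adj_iff, not_not]
  exact meet_of_on he hf

lemma no_triangle : ∀ e f g : Fin 17, Meet e f → Meet e g → Meet f g →
    ¬ On (fst e) f → ¬ On (snd e) g → False := by decide

/-- Every stable set of `G` is contained in a star of `H`. -/
lemma exists_star {s : Set (Fin 17)} (hs : G.IsIndepSet s) : ∃ v, s ⊆ {e | On v e} := by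
  have hm : ∀ e ∈ s, ∀ f ∈ s, Meet e f := by
    intro e he f hf
    by_cases hef : e = f
    · subst hef; exact Or.inl rfl
    · exact not_not.mp (hs he hf hef)
  rcases s.eq_empty_or_nonempty with rfl | ⟨e, he⟩
  · exact ⟨0, by simp⟩
  by_cases h1 : ∀ f ∈ s, On (fst e) f
  · exact ⟨fst e, h1⟩
  by_cases h2 : ∀ g ∈ s, On (snd e) g
  · exact ⟨snd e, h2⟩
  push Not at h1 h2
  obtain ⟨f, hf, hf'⟩ := h1
  obtain ⟨g, hg, hg'⟩ := h2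
  exact (no_triangle e f g (hm e he f hf) (hm e he g hg) (hm f hf g hg) hf' hg').elim

lemma star_triangle : ∀ v : Fin 9, ∀ e f : Fin 17, ¬ On v e → ¬ On v f → ¬ Meet e f →
    ∃ g : Fin 17, On v g ∧ ¬ Meet g e ∧ ¬ Meet g f := by decide

theorem isTriangleGraph : IsTriangleGraph G := by
  intro S hS u v hu hv huv
  obtain ⟨x, hx⟩ := exists_star hS.prop
  have hSx : S = {e | On x e} := hS.eq_of_subset (star_indep x) hx
  subst hSx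
  obtain ⟨g, h1, h2, h3⟩ := star_triangle x u v hu hv huv
  exact ⟨g, h1, h2, h3⟩

lemma case_Q : ∀ f₁ : Fin 17, On 3 f₁ → ¬ Meet 16 f₁ → ∀ f₂ : Fin 17, On 4 f₂ → ¬ Meet 16 f₂ →
    (f₁ = f₂ ∨ ¬ Meet f₁ f₂) → ∀ f₃ : Fin 17, On 5 f₃ → ¬ Meet 16 f₃ →
    (f₁ = f₃ ∨ ¬ Meet f₁ f₃) → (f₂ = f₃ ∨ ¬ Meet f₂ f₃) → ∀ f₄ : Fin 17, On 6 f₄ →
    ¬ Meet 16 f₄ → (f₁ = f₄ ∨ ¬ Meet f₁ f₄) → (f₂ = f₄ ∨ ¬ Meet f₂ f₄) →
    (f₃ = f₄ ∨ ¬ Meet f₃ f₄) → False := by decide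

lemma case_x : ∀ f₁ : Fin 17, On 0 f₁ → ¬ Meet 14 f₁ → ∀ f₂ : Fin 17, On 1 f₂ → ¬ Meet 14 f₂ →
    (f₁ = f₂ ∨ ¬ Meet f₁ f₂) → ∀ f₃ : Fin 17, On 2 f₃ → ¬ Meet 14 f₃ →
    (f₁ = f₃ ∨ ¬ Meet f₁ f₃) → (f₂ = f₃ ∨ ¬ Meet f₂ f₃) → ∀ f₄ : Fin 17, On 7 f₄ →
    ¬ Meet 14 f₄ → (f₁ = f₄ ∨ ¬ Meet f₁ f₄) → (f₂ = f₄ ∨ ¬ Meet f₂ f₄) →
    (f₃ = f₄ ∨ ¬ Meet f₃ f₄) → False := by decide

lemma case_y : ∀ f₁ : Fin 17, On 0 f₁ → ¬ Meet 12 f₁ → ∀ f₂ : Fin 17, On 1 f₂ → ¬ Meet 12 f₂ →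
    (f₁ = f₂ ∨ ¬ Meet f₁ f₂) → ∀ f₃ : Fin 17, On 2 f₃ → ¬ Meet 12 f₃ →
    (f₁ = f₃ ∨ ¬ Meet f₁ f₃) → (f₂ = f₃ ∨ ¬ Meet f₂ f₃) → ∀ f₄ : Fin 17, On 8 f₄ →
    ¬ Meet 12 f₄ → (f₁ = f₄ ∨ ¬ Meet f₁ f₄) → (f₂ = f₄ ∨ ¬ Meet f₂ f₄) →
    (f₃ = f₄ ∨ ¬ Meet f₃ f₄) → False := by decide

theorem not_isNormal : ¬ IsNormal G := by
  rintro ⟨C, S, hC, hS, hCc, hSc, hCS⟩
  -- the vertices of `H` whose star contains a member of `S`
  let X : Fin 9 → Prop := fun v => ∃ s ∈ S, s ⊆ {e | On v e}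
  have hcover : ∀ e : Fin 17, X (fst e) ∨ X (snd e) := by
    intro e
    obtain ⟨s, hs, hes⟩ := hSc e
    obtain ⟨v, hv⟩ := exists_star (hS s hs)
    rcases hv hes with h | h
    · left; exact h ▸ ⟨s, hs, hv⟩
    · right; exact h ▸ ⟨s, hs, hv⟩
  have hsat : ∀ c ∈ C, ∀ v, X v → ∃ e ∈ c, On v e := by
    rintro c hc v ⟨s, hs, hsv⟩
    obtain ⟨e, he, he'⟩ := hCS c hc s hs
    exact ⟨e, he, hsv he'⟩
  have hcl : ∀ c ∈ C, ∀ e ∈ c, ∀ f ∈ c, e = f ∨ ¬ Meet e f := by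
    intro c hc e he f hf
    by_cases h : e = f
    · exact Or.inl h
    · exact Or.inr (hC c hc he hf h)
  -- four vertices of `X` and an edge `g` give a contradiction through one of the three cases
  have key : ∀ (g : Fin 17) (v₁ v₂ v₃ v₄ : Fin 9), ¬ On v₁ g → ¬ On v₂ g → ¬ On v₃ g →
      ¬ On v₄ g → X v₁ → X v₂ → X v₃ → X v₄ →
      ∃ f₁ f₂ f₃ f₄ : Fin 17, (On v₁ f₁ ∧ ¬ Meet g f₁) ∧ (On v₂ f₂ ∧ ¬ Meet g f₂) ∧
        (On v₃ f₃ ∧ ¬ Meet g f₃) ∧ (On v₄ f₄ ∧ ¬ Meet g f₄) ∧ (f₁ = f₂ ∨ ¬ Meet f₁ f₂) ∧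
        (f₁ = f₃ ∨ ¬ Meet f₁ f₃) ∧ (f₂ = f₃ ∨ ¬ Meet f₂ f₃) ∧ (f₁ = f₄ ∨ ¬ Meet f₁ f₄) ∧
        (f₂ = f₄ ∨ ¬ Meet f₂ f₄) ∧ (f₃ = f₄ ∨ ¬ Meet f₃ f₄) := by
    intro g v₁ v₂ v₃ v₄ n₁ n₂ n₃ n₄ h₁ h₂ h₃ h₄
    obtain ⟨c, hc, hg⟩ := hCc g
    obtain ⟨f₁, m₁, o₁⟩ := hsat c hc v₁ h₁
    obtain ⟨f₂, m₂, o₂⟩ := hsat c hc v₂ h₂
    obtain ⟨f₃, m₃, o₃⟩ := hsat c hc v₃ h₃
    obtain ⟨f₄, m₄, o₄⟩ := hsat c hc v₄ h₄
    have aux : ∀ {v : Fin 9} {f : Fin 17}, f ∈ c → On v f → ¬ On v g → ¬ Meet g f := by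
      intro v f hf hv hn
      rcases hcl c hc g hg f hf with h | h
      · subst h; exact absurd hv hn
      · exact h
    exact ⟨f₁, f₂, f₃, f₄, ⟨o₁, aux m₁ o₁ n₁⟩, ⟨o₂, aux m₂ o₂ n₂⟩, ⟨o₃, aux m₃ o₃ n₃⟩,
      ⟨o₄, aux m₄ o₄ n₄⟩, hcl c hc _ m₁ _ m₂, hcl c hc _ m₁ _ m₃, hcl c hc _ m₂ _ m₃,
      hcl c hc _ m₁ _ m₄, hcl c hc _ m₂ _ m₄, hcl c hc _ m₃ _ m₄⟩
  have casex : X 0 → X 1 → X 2 → X 7 → False := by
    intro h₁ h₂ h₃ h₄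
    obtain ⟨f₁, f₂, f₃, f₄, a₁, a₂, a₃, a₄, b₁, b₂, b₃, b₄, b₅, b₆⟩ :=
      key 14 0 1 2 7 (by decide) (by decide) (by decide) (by decide) h₁ h₂ h₃ h₄
    exact case_x f₁ a₁.1 a₁.2 f₂ a₂.1 a₂.2 b₁ f₃ a₃.1 a₃.2 b₂ b₃ f₄ a₄.1 a₄.2 b₄ b₅ b₆
  have casey : X 0 → X 1 → X 2 → X 8 → False := by
    intro h₁ h₂ h₃ h₄
    obtain ⟨f₁, f₂, f₃, f₄, a₁, a₂, a₃, a₄, b₁, b₂, b₃, b₄, b₅, b₆⟩ :=
      key 12 0 1 2 8 (by decide) (by decide) (by decide) (by decide) h₁ h₂ h₃ h₄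
    exact case_y f₁ a₁.1 a₁.2 f₂ a₂.1 a₂.2 b₁ f₃ a₃.1 a₃.2 b₂ b₃ f₄ a₄.1 a₄.2 b₄ b₅ b₆
  have h0 := hcover 0
  have h1 := hcover 1
  have h2 := hcover 2
  have h3 := hcover 3
  have h4 := hcover 4
  have h5 := hcover 5
  have h6 := hcover 6
  have h7 := hcover 7
  have h8 := hcover 8
  have h9 := hcover 9
  have h10 := hcover 10
  have h11 := hcover 11
  have h12 := hcover 12
  have h13 := hcover 13
  have h14 := hcover 14
  have h15 := hcover 15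
  simp only [fst, snd, Matrix.cons_val] at h0 h1 h2 h3 h4 h5 h6 h7 h8 h9 h10 h11 h12 h13 h14 h15
  by_cases q3 : X 3
  · by_cases q4 : X 4
    · by_cases q5 : X 5
      · by_cases q6 : X 6
        · obtain ⟨f₁, f₂, f₃, f₄, a₁, a₂, a₃, a₄, b₁, b₂, b₃, b₄, b₅, b₆⟩ :=
            key 16 3 4 5 6 (by decide) (by decide) (by decide) (by decide) q3 q4 q5 q6
          exact case_Q f₁ a₁.1 a₁.2 f₂ a₂.1 a₂.2 b₁ f₃ a₃.1 a₃.2 b₂ b₃ f₄ a₄.1 a₄.2 b₄ b₅ b₆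
        · exact casey (h3.resolve_right q6) (h7.resolve_right q6) (h11.resolve_right q6)
            (h15.resolve_right q6)
      · exact casey (h2.resolve_right q5) (h6.resolve_right q5) (h10.resolve_right q5)
          (h14.resolve_right q5)
    · exact casex (h1.resolve_right q4) (h5.resolve_right q4) (h9.resolve_right q4)
        (h13.resolve_right q4)
  · exact casex (h0.resolve_right q3) (h4.resolve_right q3) (h8.resolve_right q3)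
      (h12.resolve_right q3)

/-- There is a triangle graph (with seventeen vertices) that is not normal. -/
theorem result : ∃ G : SimpleGraph (Fin 17), IsTriangleGraph G ∧ ¬ IsNormal G :=
  ⟨G, isTriangleGraph, not_isNormal⟩

end Pool.Agent.Results.MP_de1832_co.TriangleNotNormal
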